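import Mathlib
import Pool.Agent.Lib.Brouwer.Fix

/-!
Abstract minimax: a one parameter family `F + l K` whose gradient does not vanish where `K` is not
small cannot change its minimax level by more than a small constant. Brouwer only.
-/

open Set Metric Filter Topology
open scoped RealInnerProductSpace

namespace CoP

/-- A continuous map at bounded distance from a linear isomorphism is onto (Brouwer). -/
theorem onto_of_bounded {A : Type*} [NormedAddCommGroup A] [NormedSpace ℝ A] [FiniteDimensional ℝ A]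
    (S : A ≃L[ℝ] A) (T : A → A) (hT : Continuous T) (D : ℝ) (hD : ∀ a, ‖T a - S a‖ ≤ D) :
    ∃ a, T a = 0 := by
  -- fixed point of a ↦ S⁻¹ (S a - T a)
  have hD0 : 0 ≤ D := (norm_nonneg _).trans (hD 0)
  let R : ℝ := ‖(S.symm : A →L[ℝ] A)‖ * D
  have hR : 0 ≤ R := mul_nonneg (norm_nonneg _) hD0
  obtain ⟨a, -, ha⟩ := BrouwerFP.brouwer (V := A) (isCompact_closedBall (0 : A) R)
    (convex_closedBall 0 R) ⟨0, by simp [hR]⟩ (fun a => S.symm (S a - T a))
    ((S.symm.continuous.comp (S.continuous.sub hT)).continuousOn) (by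
      intro a _
      rw [mem_closedBall, dist_zero_right]
      calc ‖S.symm (S a - T a)‖ ≤ ‖(S.symm : A →L[ℝ] A)‖ * ‖S a - T a‖ :=
            (S.symm : A →L[ℝ] A).le_opNorm _
        _ ≤ R := mul_le_mul_of_nonneg_left (by rw [norm_sub_rev]; exact hD a) (norm_nonneg _))
  refine ⟨a, ?_⟩
  have h1 : S (S.symm (S a - T a)) = S a := congrArg S ha
  rw [S.apply_symm_apply] at h1
  simpa using h1

private noncomputable def th (γ t : ℝ) : ℝ := max 0 (min 1 ((t - γ / 2) / (γ / 2)))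

private theorem th_cont (γ : ℝ) : Continuous (th γ) := by
  unfold th
  exact continuous_const.max (continuous_const.min
    ((continuous_id.sub continuous_const).div_const _))

private theorem th_nonneg (γ t : ℝ) : 0 ≤ th γ t := le_max_left _ _

private theorem th_le_one (γ t : ℝ) : th γ t ≤ 1 := max_le zero_le_one (min_le_left _ _)

private theorem th_zero {γ t : ℝ} (hγ : 0 < γ) (ht : t < γ / 2) : th γ t = 0 := by
  unfold th
  apply max_eq_left
  refine (min_le_right _ _).trans ?_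
  exact div_nonpos_of_nonpos_of_nonneg (by linarith) (by linarith)

private theorem th_one {γ t : ℝ} (hγ : 0 < γ) (ht : γ ≤ t) : th γ t = 1 := by
  unfold th
  have h1 : 1 ≤ (t - γ / 2) / (γ / 2) := by
    rw [le_div_iff₀ (by linarith)]
    linarith
  rw [min_eq_left h1]
  exact max_eq_right zero_le_one

private noncomputable def Wf {X : Type*} [NormedAddCommGroup X] [InnerProductSpace ℝ X]
    (K : X → ℝ) (G G' : X → X) (μ γ l : ℝ) (x : X) : X :=
  -(th γ (K x) * K x / max (‖G x + l • G' x‖ ^ 2) (μ ^ 2)) • (G x + l • G' x)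

private theorem Wf_cont {X : Type*} [NormedAddCommGroup X] [InnerProductSpace ℝ X]
    {K : X → ℝ} {G G' : X → X} (hG : Continuous G) (hG' : Continuous G') (hK : Continuous K)
    {μ : ℝ} (γ l : ℝ) (hμ : 0 < μ) : Continuous (Wf K G G' μ γ l) := by
  unfold Wf
  have h1 : Continuous fun x => G x + l • G' x := hG.add (hG'.const_smul l)
  refine Continuous.smul (Continuous.neg (Continuous.div (((th_cont γ).comp hK).mul hK)
    ((h1.norm.pow 2).max continuous_const) ?_)) h1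
  intro x
  exact (lt_max_of_lt_right (pow_pos hμ 2)).ne'

private theorem Wf_norm {X : Type*} [NormedAddCommGroup X] [InnerProductSpace ℝ X]
    {K : X → ℝ} {G G' : X → X} {M' μ : ℝ} (γ l : ℝ) (hμ : 0 < μ)
    (hK0 : ∀ x, 0 ≤ K x) (hK1 : ∀ x, K x ≤ M') (x : X) :
    ‖Wf K G G' μ γ l x‖ ≤ M' / μ := by
  unfold Wf
  set g := G x + l • G' x with hg
  have hm : 0 < max (‖g‖ ^ 2) (μ ^ 2) := lt_max_of_lt_right (pow_pos hμ 2)
  have hΘ0 : 0 ≤ th γ (K x) * K x := mul_nonneg (th_nonneg _ _) (hK0 x)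
  have hΘ1 : th γ (K x) * K x ≤ M' := by
    have := mul_le_mul_of_nonneg_right (th_le_one γ (K x)) (hK0 x)
    linarith [hK1 x]
  have hgm : ‖g‖ * μ ≤ max (‖g‖ ^ 2) (μ ^ 2) := by
    rcases le_total ‖g‖ μ with h | h
    · refine le_trans ?_ (le_max_right _ _)
      nlinarith [norm_nonneg g]
    · refine le_trans ?_ (le_max_left _ _)
      nlinarith [norm_nonneg g]
  rw [norm_smul, norm_neg, Real.norm_eq_abs, abs_of_nonneg (div_nonneg hΘ0 hm.le),
    div_mul_eq_mul_div, div_le_div_iff₀ hm hμ]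
  calc th γ (K x) * K x * ‖g‖ * μ = th γ (K x) * K x * (‖g‖ * μ) := by ring
    _ ≤ M' * max (‖g‖ ^ 2) (μ ^ 2) :=
        mul_le_mul hΘ1 hgm (mul_nonneg (norm_nonneg _) hμ.le) (hΘ0.trans hΘ1)

private theorem Wf_inner {X : Type*} [NormedAddCommGroup X] [InnerProductSpace ℝ X]
    {K : X → ℝ} {G G' : X → X} {μ γ l : ℝ} (hμ : 0 < μ) (hγ : 0 < γ) (x : X)
    (hx : γ / 2 ≤ K x → μ ≤ ‖G x + l • G' x‖) :
    ⟪G x + l • G' x, Wf K G G' μ γ l x⟫ = -(th γ (K x) * K x) := by
  unfold Wf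
  set g := G x + l • G' x with hg
  rw [inner_smul_right, real_inner_self_eq_norm_sq]
  rcases lt_or_ge (K x) (γ / 2) with h | h
  · rw [th_zero hγ h]
    simp
  · have h1 := hx h
    have h2 : μ ^ 2 ≤ ‖g‖ ^ 2 := pow_le_pow_left₀ hμ.le h1 2
    rw [max_eq_left h2]
    have h3 : ‖g‖ ^ 2 ≠ 0 := (lt_of_lt_of_le (pow_pos hμ 2) h2).ne'
    rw [neg_mul, div_mul_cancel₀ _ h3]

private theorem K_sub {γ t : ℝ} (hγ : 0 < γ) (ht : 0 ≤ t) : t - th γ t * t ≤ γ := by
  rcases lt_or_ge t γ with h | h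
  · have := mul_nonneg (th_nonneg γ t) ht
    linarith
  · rw [th_one hγ h]
    linarith

/-- The abstract minimax lemma. -/
theorem minimax {A X : Type*} [NormedAddCommGroup A] [NormedSpace ℝ A] [FiniteDimensional ℝ A]
    [NormedAddCommGroup X] [InnerProductSpace ℝ X]
    (F K : X → ℝ) (G G' : X → X) (hG : Continuous G) (hG' : Continuous G') (hK : Continuous K)
    (L M M' μ γ : ℝ) (hL : 0 ≤ L) (hM : 0 ≤ M) (hμ : 0 < μ) (hγ : 0 < γ)
    (hF : ∀ l ∈ Icc (0 : ℝ) 1, ∀ x w : X,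
      F (x + w) + l * K (x + w) ≤ F x + l * K x + ⟪G x + l • G' x, w⟫ + L * ‖w‖ ^ 2)
    (hK0 : ∀ x, 0 ≤ K x) (hK1 : ∀ x, K x ≤ M') (hKL : ∀ x w, K (x + w) ≤ K x + M * ‖w‖)
    (hcrit : ∀ l ∈ Icc (0 : ℝ) 1, ∀ x : X, γ / 2 ≤ K x → μ ≤ ‖G x + l • G' x‖)
    (i : A →L[ℝ] X) (T : X →L[ℝ] A) (S : A ≃L[ℝ] A) (hS : ∀ a, T (i a) = S a)
    (c₀ c₁ : ℝ) (h0 : ∀ a, F (i a) ≤ c₀) (h1 : ∀ x, T x = 0 → c₁ ≤ F x + K x) :
    c₁ ≤ c₀ + γ := by
  by_contra hcon
  push Not at hcon
  have hM' : 0 ≤ M' := (hK0 0).trans (hK1 0)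
  set D : ℝ := M' / μ with hDdef
  have hD : 0 ≤ D := div_nonneg hM' hμ.le
  set C : ℝ := L * D ^ 2 + M * D with hCdef
  have hC : 0 ≤ C := add_nonneg (mul_nonneg hL (sq_nonneg _)) (mul_nonneg hM hD)
  have hWn : ∀ l x, ‖Wf K G G' μ γ l x‖ ≤ D := fun l x => Wf_norm γ l hμ hK0 hK1 x
  -- one step
  have hstep : ∀ l ∈ Icc (0 : ℝ) 1, ∀ δ : ℝ, 0 ≤ δ → ∀ x : X,
      F (x + δ • Wf K G G' μ γ l x) + (l + δ) * K (x + δ • Wf K G G' μ γ l x) ≤
        F x + l * K x + δ * γ + C * δ ^ 2 := by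
    intro l hl δ hδ x
    set w := Wf K G G' μ γ l x with hw
    have e1 := hF l hl x (δ • w)
    have e2 := hKL x (δ • w)
    have e3 : ⟪G x + l • G' x, δ • w⟫ = δ * -(th γ (K x) * K x) := by
      rw [inner_smul_right, hw, Wf_inner hμ hγ x (hcrit l hl x)]
    have e4 : ‖δ • w‖ = δ * ‖w‖ := by rw [norm_smul, Real.norm_eq_abs, abs_of_nonneg hδ]
    rw [e3, e4] at e1
    rw [e4] at e2
    have e5 : ‖w‖ ≤ D := hWn l x
    have e6 : L * (δ * ‖w‖) ^ 2 ≤ L * D ^ 2 * δ ^ 2 := by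
      have : ‖w‖ ^ 2 ≤ D ^ 2 := pow_le_pow_left₀ (norm_nonneg _) e5 2
      have h2 : L * δ ^ 2 * ‖w‖ ^ 2 ≤ L * δ ^ 2 * D ^ 2 :=
        mul_le_mul_of_nonneg_left this (mul_nonneg hL (sq_nonneg _))
      nlinarith
    have e7 : δ * K (x + δ • w) ≤ δ * K x + M * D * δ ^ 2 := by
      have h2 := mul_le_mul_of_nonneg_left e2 hδ
      have h3 : δ * (M * (δ * ‖w‖)) ≤ M * D * δ ^ 2 := by
        have : M * δ ^ 2 * ‖w‖ ≤ M * δ ^ 2 * D :=
          mul_le_mul_of_nonneg_left e5 (mul_nonneg hM (sq_nonneg _))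
        nlinarith
      nlinarith
    have e8 := mul_le_mul_of_nonneg_left (K_sub hγ (hK0 x)) hδ
    rw [hCdef]
    nlinarith
  -- iteration
  obtain ⟨n, hn⟩ := exists_nat_gt (C / (c₁ - c₀ - γ))
  have hη : 0 < c₁ - c₀ - γ := by linarith
  have hn0 : (0 : ℝ) < n := lt_of_le_of_lt (div_nonneg hC hη.le) hn
  let δ : ℝ := 1 / n
  have hδ : 0 < δ := one_div_pos.mpr hn0
  have hδn : (n : ℝ) * δ = 1 := by
    simp only [δ]
    field_simp
  let Y : ℕ → A → X := fun k => Nat.rec (fun a => i a)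
    (fun k Yk a => Yk a + δ • Wf K G G' μ γ (k * δ) (Yk a)) k
  have hY0 : ∀ a, Y 0 a = i a := fun a => rfl
  have hYs : ∀ k a, Y (k + 1) a = Y k a + δ • Wf K G G' μ γ (k * δ) (Y k a) := fun k a => rfl
  have hYc : ∀ k, Continuous (Y k) := by
    intro k
    induction k with
    | zero => exact i.continuous
    | succ k ih =>
      have : Y (k + 1) = fun a => Y k a + δ • Wf K G G' μ γ (k * δ) (Y k a) := rfl
      rw [this]
      exact ih.add (((Wf_cont hG hG' hK γ _ hμ).comp ih).const_smul δ)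
  have hYd : ∀ k a, ‖Y k a - i a‖ ≤ k * δ * D := by
    intro k a
    induction k with
    | zero => simp [hY0]
    | succ k ih =>
      rw [hYs]
      have e1 : Y k a + δ • Wf K G G' μ γ (k * δ) (Y k a) - i a =
        (Y k a - i a) + δ • Wf K G G' μ γ (k * δ) (Y k a) := by abel
      rw [e1]
      refine (norm_add_le _ _).trans ?_
      rw [norm_smul, Real.norm_eq_abs, abs_of_pos hδ]
      have e2 := mul_le_mul_of_nonneg_left (hWn (k * δ) (Y k a)) hδ.le
      push_cast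
      nlinarith
  have hYF : ∀ k : ℕ, k ≤ n → ∀ a, F (Y k a) + (k * δ) * K (Y k a) ≤
      c₀ + k * δ * γ + k * (C * δ ^ 2) := by
    intro k
    induction k with
    | zero =>
      intro _ a
      have := h0 a
      simpa [hY0] using this
    | succ k ih =>
      intro hk a
      have e1 := ih (by omega) a
      have hl : (k : ℝ) * δ ∈ Icc (0 : ℝ) 1 := by
        refine ⟨by positivity, ?_⟩
        rw [← hδn]
        have : (k : ℝ) ≤ n := by exact_mod_cast (by omega : k ≤ n)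
        exact mul_le_mul_of_nonneg_right this hδ.le
      have e2 := hstep _ hl δ hδ.le (Y k a)
      rw [hYs]
      push_cast
      have e3 : ((k : ℝ) + 1) * δ = k * δ + δ := by ring
      rw [e3]
      nlinarith
  obtain ⟨a, ha⟩ := onto_of_bounded S (fun a => T (Y n a)) (T.continuous.comp (hYc n))
    (‖T‖ * D) (by
      intro a
      rw [← hS a, ← map_sub]
      refine (T.le_opNorm _).trans (mul_le_mul_of_nonneg_left ?_ (norm_nonneg _))
      have := hYd n a
      rwa [hδn, one_mul] at this)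
  have e1 := h1 _ ha
  have e2 := hYF n le_rfl a
  rw [hδn] at e2
  have e3 : (n : ℝ) * (C * δ ^ 2) = C * δ := by
    calc (n : ℝ) * (C * δ ^ 2) = C * δ * (n * δ) := by ring
      _ = C * δ := by rw [hδn, mul_one]
  rw [e3] at e2
  have e4 : C * δ < c₁ - c₀ - γ := by
    have : C / (c₁ - c₀ - γ) < n := hn
    rw [div_lt_iff₀ hη] at this
    simp only [δ]
    rw [mul_one_div, div_lt_iff₀ hn0]
    linarith
  linarith

end CoP
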