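import Mathlib
import Pool.Agent.Lib.CoP.A.Minimax

/-!
The discrete local positivity statement: symplectic Euler steps of a small Hamiltonian starting on
`p = 0` reach a neighbourhood of the origin.
-/

open Set Metric Filter Topology
open scoped RealInnerProductSpace

namespace CoP

variable {E : Type*} [NormedAddCommGroup E] [InnerProductSpace ℝ E]

/-- index set: `q_N`, the differences `u_k = q_k - q_{k+1}`, the momenta `p_{k+1}` -/
private abbrev Ix (N : ℕ) : Type := Unit ⊕ (Fin N ⊕ Fin N)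

private abbrev Xs (E : Type*) (N : ℕ) : Type _ := PiLp 2 (fun _ : Ix N => E)

private noncomputable def mk {N : ℕ} (q : E) (u p : Fin N → E) : Xs E N :=
  WithLp.toLp 2 (Sum.elim (fun _ => q) (Sum.elim u p))

private noncomputable def Qs {N : ℕ} (x : Xs E N) (j : ℕ) : E :=
  x (Sum.inl ()) + ∑ k : Fin N, if j ≤ (k : ℕ) then x (Sum.inr (Sum.inl k)) else 0

private noncomputable def zz {N : ℕ} (x : Xs E N) (j : Fin N) : E × E :=
  (Qs x j, x (Sum.inr (Sum.inr j)))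

private noncomputable def Ff {N : ℕ} (h : ℝ) (H : E × E → ℝ) (x : Xs E N) : ℝ :=
  ∑ j : Fin N, (⟪x (Sum.inr (Sum.inr j)), x (Sum.inr (Sum.inl j))⟫ + h * H (zz x j))

private noncomputable def Gf {N : ℕ} (h : ℝ) (Hq Hp : E × E → E) (x : Xs E N) : Xs E N :=
  mk (h • ∑ j : Fin N, Hq (zz x j))
    (fun k => x (Sum.inr (Sum.inr k)) + h • ∑ j : Fin N, if (j : ℕ) ≤ k then Hq (zz x j) else 0)
    (fun j => x (Sum.inr (Sum.inl j)) + h • Hp (zz x j))

private noncomputable def Gk {N : ℕ} (κ' : E → E) (x : Xs E N) : Xs E N :=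
  mk (κ' (x (Sum.inl ()))) (fun _ => 0) (fun _ => 0)

private theorem Qs_add {N : ℕ} (x w : Xs E N) (j : ℕ) : Qs (x + w) j = Qs x j + Qs w j := by
  unfold Qs
  simp only [PiLp.add_apply]
  rw [add_add_add_comm, ← Finset.sum_add_distrib]
  congr 1
  refine Finset.sum_congr rfl fun k _ => ?_
  split_ifs <;> simp

private theorem Qs_cont {N : ℕ} (j : ℕ) : Continuous fun x : Xs E N => Qs x j := by
  unfold Qs
  refine Continuous.add (by fun_prop) (continuous_finsetSum _ fun k _ => ?_)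
  split_ifs
  · fun_prop
  · exact continuous_const

private theorem zz_cont {N : ℕ} (j : Fin N) : Continuous fun x : Xs E N => zz x j := by
  unfold zz
  exact (Qs_cont _).prodMk (by fun_prop)

private theorem comp_le {N : ℕ} (x : Xs E N) (s : Ix N) : ‖x s‖ ≤ ‖x‖ :=
  PiLp.norm_apply_le x s

private theorem Qs_norm {N : ℕ} (x : Xs E N) (j : ℕ) : ‖Qs x j‖ ≤ (N + 1) * ‖x‖ := by
  unfold Qs
  refine (norm_add_le _ _).trans ?_
  have h1 : ‖∑ k : Fin N, if j ≤ (k : ℕ) then x (Sum.inr (Sum.inl k)) else 0‖ ≤ N * ‖x‖ := by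
    refine (norm_sum_le _ _).trans ?_
    have : ∀ k ∈ (Finset.univ : Finset (Fin N)),
        ‖(if j ≤ (k : ℕ) then x (Sum.inr (Sum.inl k)) else 0)‖ ≤ ‖x‖ := by
      intro k _
      split_ifs
      · exact comp_le x _
      · simp
    refine (Finset.sum_le_card_nsmul _ _ _ this).trans ?_
    simp
  have h2 := comp_le x (Sum.inl ())
  nlinarith

private theorem mk_cont {N : ℕ} {Y : Type*} [TopologicalSpace Y] {q : Y → E}
    {u p : Y → Fin N → E} (hq : Continuous q) (hu : ∀ k, Continuous fun y => u y k)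
    (hp : ∀ k, Continuous fun y => p y k) : Continuous fun y => mk (q y) (u y) (p y) := by
  unfold mk
  refine (PiLp.continuous_toLp 2 _).comp (continuous_pi fun s => ?_)
  rcases s with s | s | s
  · exact hq
  · exact hu s
  · exact hp s

private theorem Gf_cont {N : ℕ} (h : ℝ) {Hq Hp : E × E → E} (hq : Continuous Hq)
    (hp : Continuous Hp) : Continuous (Gf (N := N) h Hq Hp) := by
  unfold Gf
  refine mk_cont ?_ ?_ ?_
  · exact (continuous_finsetSum _ fun j _ => hq.comp (zz_cont j)).const_smul h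
  · intro k
    refine Continuous.add (by fun_prop) (Continuous.const_smul
      (continuous_finsetSum _ fun j _ => ?_) h)
    split_ifs
    · exact hq.comp (zz_cont j)
    · exact continuous_const
  · intro j
    exact Continuous.add (by fun_prop) ((hp.comp (zz_cont j)).const_smul h)

private theorem Gk_cont {N : ℕ} {κ' : E → E} (hk : Continuous κ') :
    Continuous (Gk (N := N) κ') := by
  unfold Gk
  exact mk_cont (hk.comp (by fun_prop)) (fun _ => continuous_const) (fun _ => continuous_const)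

private theorem inner_mk {N : ℕ} (q : E) (u p : Fin N → E) (w : Xs E N) :
    ⟪mk q u p, w⟫ = ⟪q, w (Sum.inl ())⟫ + (∑ k : Fin N, ⟪u k, w (Sum.inr (Sum.inl k))⟫ +
      ∑ k : Fin N, ⟪p k, w (Sum.inr (Sum.inr k))⟫) := by
  unfold mk
  rw [PiLp.inner_apply, Fintype.sum_sum_type, Fintype.sum_sum_type]
  simp

private theorem inner_Gf {N : ℕ} (h : ℝ) (Hq Hp : E × E → E) (x w : Xs E N) :
    ⟪Gf h Hq Hp x, w⟫ = ∑ j : Fin N,
      (⟪x (Sum.inr (Sum.inr j)), w (Sum.inr (Sum.inl j))⟫ +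
        ⟪x (Sum.inr (Sum.inl j)), w (Sum.inr (Sum.inr j))⟫ +
        h * (⟪Hq (zz x j), Qs w j⟫ + ⟪Hp (zz x j), w (Sum.inr (Sum.inr j))⟫)) := by
  unfold Gf
  rw [inner_mk]
  have e1 : ∑ k : Fin N, ⟪x (Sum.inr (Sum.inr k)) + h • ∑ j : Fin N,
        (if (j : ℕ) ≤ k then Hq (zz x j) else 0), w (Sum.inr (Sum.inl k))⟫ =
      ∑ k : Fin N, ⟪x (Sum.inr (Sum.inr k)), w (Sum.inr (Sum.inl k))⟫ +
        h * ∑ j : Fin N, ⟪Hq (zz x j), ∑ k : Fin N,
          if (j : ℕ) ≤ (k : ℕ) then w (Sum.inr (Sum.inl k)) else 0⟫ := by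
    simp only [inner_add_left, real_inner_smul_left, Finset.sum_add_distrib, sum_inner,
      inner_sum, Finset.mul_sum]
    congr 1
    rw [Finset.sum_comm]
    refine Finset.sum_congr rfl fun j _ => Finset.sum_congr rfl fun k _ => ?_
    split_ifs <;> simp
  rw [e1]
  unfold Qs
  simp only [inner_add_left, inner_add_right, real_inner_smul_left, Finset.sum_add_distrib,
    sum_inner, Finset.mul_sum, mul_add]
  ring

private theorem mk_add_apply {N : ℕ} (x w : Xs E N) (s : Ix N) : (x + w) s = x s + w s := rfl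

private theorem taylorF {N : ℕ} (h : ℝ) (hh : 0 ≤ h) {H : E × E → ℝ} {Hq Hp : E × E → E}
    {L : ℝ} (hL : 0 ≤ L)
    (hH : ∀ z v : E × E, H (z + v) ≤ H z + ⟪Hq z, v.1⟫ + ⟪Hp z, v.2⟫ +
      L * (‖v.1‖ ^ 2 + ‖v.2‖ ^ 2)) (x w : Xs E N) :
    Ff h H (x + w) ≤ Ff h H x + ⟪Gf h Hq Hp x, w⟫ +
      (N * (1 + h * L * ((N + 1) ^ 2 + 1))) * ‖w‖ ^ 2 := by
  rw [inner_Gf]
  unfold Ff
  rw [← Finset.sum_add_distrib]
  have key : ∀ j ∈ (Finset.univ : Finset (Fin N)),
      ⟪(x + w) (Sum.inr (Sum.inr j)), (x + w) (Sum.inr (Sum.inl j))⟫ + h * H (zz (x + w) j) ≤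
      (⟪x (Sum.inr (Sum.inr j)), x (Sum.inr (Sum.inl j))⟫ + h * H (zz x j) +
      (⟪x (Sum.inr (Sum.inr j)), w (Sum.inr (Sum.inl j))⟫ +
        ⟪x (Sum.inr (Sum.inl j)), w (Sum.inr (Sum.inr j))⟫ +
        h * (⟪Hq (zz x j), Qs w j⟫ + ⟪Hp (zz x j), w (Sum.inr (Sum.inr j))⟫))) +
      (1 + h * L * ((N + 1) ^ 2 + 1)) * ‖w‖ ^ 2 := by
    intro j _
    rw [mk_add_apply, mk_add_apply, inner_add_left, inner_add_right, inner_add_right]
    have e1 : zz (x + w) j = zz x j + zz w j := by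
      unfold zz
      rw [Qs_add]
      rfl
    rw [e1]
    have e2 := mul_le_mul_of_nonneg_left (hH (zz x j) (zz w j)) hh
    have e3 : (zz w j).1 = Qs w j := rfl
    have e4 : (zz w j).2 = w (Sum.inr (Sum.inr j)) := rfl
    rw [e3, e4] at e2
    have e5 : ‖Qs w j‖ ^ 2 ≤ ((N + 1) * ‖w‖) ^ 2 :=
      pow_le_pow_left₀ (norm_nonneg _) (Qs_norm w j) 2
    have e6 : ‖w (Sum.inr (Sum.inr j))‖ ^ 2 ≤ ‖w‖ ^ 2 :=
      pow_le_pow_left₀ (norm_nonneg _) (comp_le w _) 2
    have e7 : ⟪w (Sum.inr (Sum.inr j)), w (Sum.inr (Sum.inl j))⟫ ≤ ‖w‖ ^ 2 := by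
      refine (real_inner_le_norm _ _).trans ?_
      have a1 := comp_le w (Sum.inr (Sum.inr j))
      have a2 := comp_le w (Sum.inr (Sum.inl j))
      nlinarith [norm_nonneg (w (Sum.inr (Sum.inr j))), norm_nonneg (w (Sum.inr (Sum.inl j)))]
    have e8 : h * (L * (‖Qs w j‖ ^ 2 + ‖w (Sum.inr (Sum.inr j))‖ ^ 2)) ≤
        h * L * ((N + 1) ^ 2 + 1) * ‖w‖ ^ 2 := by
      have := mul_le_mul_of_nonneg_left (add_le_add e5 e6) (mul_nonneg hh hL)
      nlinarith
    have e9 : ⟪w (Sum.inr (Sum.inr j)), x (Sum.inr (Sum.inl j))⟫ =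
      ⟪x (Sum.inr (Sum.inl j)), w (Sum.inr (Sum.inr j))⟫ := real_inner_comm _ _
    rw [e9]
    nlinarith
  refine (Finset.sum_le_sum key).trans ?_
  rw [Finset.sum_add_distrib]
  simp only [Finset.sum_const, Finset.card_univ, Fintype.card_fin, nsmul_eq_mul]
  apply le_of_eq
  ring

private theorem Qs_succ {N : ℕ} (x : Xs E N) (j : Fin N) :
    Qs x j - Qs x (j + 1) = x (Sum.inr (Sum.inl j)) := by
  unfold Qs
  rw [add_sub_add_left_eq_sub, ← Finset.sum_sub_distrib]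
  rw [Finset.sum_eq_single j]
  · simp
  · intro k _ hk
    have h1 : (k : ℕ) ≠ j := fun h => hk (Fin.ext h)
    by_cases h2 : (j : ℕ) ≤ k
    · have h3 : (j : ℕ) + 1 ≤ k := by omega
      simp [h2, h3]
    · have h3 : ¬ (j : ℕ) + 1 ≤ k := by omega
      simp [h2, h3]
  · simp

private theorem Qs_last {N : ℕ} (x : Xs E N) : Qs x N = x (Sum.inl ()) := by
  unfold Qs
  rw [Finset.sum_eq_zero]
  · simp
  · intro k _
    rw [if_neg (by have := k.2; omega)]

/-- the momenta as a sequence -/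
private noncomputable def Ps {N : ℕ} (h : ℝ) (Hq : E × E → E) (x : Xs E N) (j : ℕ) : E :=
  -(h • ∑ i : Fin N, if (i : ℕ) < j then Hq (zz x i) else 0)

private theorem Ps_zero {N : ℕ} (h : ℝ) (Hq : E × E → E) (x : Xs E N) : Ps h Hq x 0 = 0 := by
  unfold Ps
  simp

private theorem Ps_succ {N : ℕ} (h : ℝ) (Hq : E × E → E) (x : Xs E N) (j : Fin N) :
    Ps h Hq x (j + 1) = Ps h Hq x j - h • Hq (zz x j) := by
  unfold Ps
  have e1 : (∑ i : Fin N, if (i : ℕ) < j + 1 then Hq (zz x i) else 0) =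
      (∑ i : Fin N, if (i : ℕ) < j then Hq (zz x i) else 0) + Hq (zz x j) := by
    have e2 : Hq (zz x j) = ∑ i : Fin N, if i = j then Hq (zz x i) else 0 := by simp
    rw [e2, ← Finset.sum_add_distrib]
    refine Finset.sum_congr rfl fun i _ => ?_
    rcases lt_trichotomy (i : ℕ) j with h1 | h1 | h1
    · have h2 : (i : ℕ) < j + 1 := by omega
      have h3 : i ≠ j := fun h => by rw [h] at h1; omega
      simp [h1, h2, h3]
    · have h2 : i = j := Fin.ext h1
      subst h2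
      simp
    · have h2 : ¬ (i : ℕ) < j + 1 := by omega
      have h3 : i ≠ j := fun h => by rw [h] at h1; omega
      have h4 : ¬ (i : ℕ) < j := by omega
      simp [h2, h3, h4]
  rw [e1, smul_add]
  abel

private theorem Gcomp_q {N : ℕ} (h l : ℝ) (Hq Hp : E × E → E) (κ' : E → E) (x : Xs E N) :
    (Gf h Hq Hp x + l • Gk κ' x) (Sum.inl ()) =
      h • ∑ j : Fin N, Hq (zz x j) + l • κ' (x (Sum.inl ())) := rfl

private theorem Gcomp_u {N : ℕ} (h l : ℝ) (Hq Hp : E × E → E) (κ' : E → E) (x : Xs E N)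
    (k : Fin N) : (Gf h Hq Hp x + l • Gk κ' x) (Sum.inr (Sum.inl k)) =
      x (Sum.inr (Sum.inr k)) + h • (∑ j : Fin N, if (j : ℕ) ≤ k then Hq (zz x j) else 0) := by
  have : (Gf h Hq Hp x + l • Gk κ' x) (Sum.inr (Sum.inl k)) =
    (x (Sum.inr (Sum.inr k)) + h • (∑ j : Fin N, if (j : ℕ) ≤ k then Hq (zz x j) else 0)) +
      l • 0 := rfl
  rw [this, smul_zero, add_zero]

private theorem Gcomp_p {N : ℕ} (h l : ℝ) (Hq Hp : E × E → E) (κ' : E → E) (x : Xs E N)
    (k : Fin N) : (Gf h Hq Hp x + l • Gk κ' x) (Sum.inr (Sum.inr k)) =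
      x (Sum.inr (Sum.inl k)) + h • Hp (zz x k) := by
  have : (Gf h Hq Hp x + l • Gk κ' x) (Sum.inr (Sum.inr k)) =
    (x (Sum.inr (Sum.inl k)) + h • Hp (zz x k)) + l • 0 := rfl
  rw [this, smul_zero, add_zero]

/-- A critical point is a discrete trajectory. -/
private theorem crit_traj {N : ℕ} (h l : ℝ) (Hq Hp : E × E → E) (κ' : E → E) (x : Xs E N)
    (hx : Gf h Hq Hp x + l • Gk κ' x = 0) :
    ∃ Q P : ℕ → E, P 0 = 0 ∧ (∀ j < N, Q (j + 1) = Q j + h • Hp (Q j, P (j + 1)) ∧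
      P (j + 1) = P j - h • Hq (Q j, P (j + 1))) ∧ Q N = x (Sum.inl ()) ∧
      P N = l • κ' (x (Sum.inl ())) := by
  have hx' : ∀ s, (Gf h Hq Hp x + l • Gk κ' x) s = 0 := fun s => by rw [hx]; rfl
  have hp : ∀ j : Fin N, x (Sum.inr (Sum.inr j)) = Ps h Hq x (j + 1) := by
    intro j
    have h1 := hx' (Sum.inr (Sum.inl j))
    rw [Gcomp_u] at h1
    rw [eq_neg_of_add_eq_zero_left h1]
    unfold Ps
    congr 2
    refine Finset.sum_congr rfl fun i _ => ?_
    simp only [Nat.lt_succ_iff]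
  have hzz : ∀ j : Fin N, zz x j = (Qs x j, Ps h Hq x (j + 1)) := by
    intro j
    rw [← hp]
    rfl
  refine ⟨Qs x, Ps h Hq x, Ps_zero _ _ _, ?_, Qs_last x, ?_⟩
  · intro j hj
    have h1 := hx' (Sum.inr (Sum.inr ⟨j, hj⟩))
    rw [Gcomp_p] at h1
    have h2 := Qs_succ x ⟨j, hj⟩
    have h3 := Ps_succ h Hq x ⟨j, hj⟩
    have h4 := hzz ⟨j, hj⟩
    simp only at h2 h3 h4
    rw [h4] at h1 h3
    refine ⟨?_, h3⟩
    rw [← h2] at h1
    have h5 : Qs x (j + 1) = Qs x j + h • Hp (Qs x j, Ps h Hq x (j + 1)) -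
      (Qs x j - Qs x (j + 1) + h • Hp (Qs x j, Ps h Hq x (j + 1))) := by abel
    rw [h1, sub_zero] at h5
    exact h5
  · have h1 := hx' (Sum.inl ())
    rw [Gcomp_q] at h1
    unfold Ps
    have h2 : (∑ i : Fin N, if (i : ℕ) < N then Hq (zz x i) else 0) =
        ∑ i : Fin N, Hq (zz x i) :=
      Finset.sum_congr rfl fun i _ => by rw [if_pos i.2]
    rw [h2]
    exact (eq_neg_of_add_eq_zero_right h1).symm

variable [FiniteDimensional ℝ E]

private theorem norm_le_of_comp {N : ℕ} (x : Xs E N) (R : ℝ) (hx : ∀ s, ‖x s‖ ≤ R) :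
    ‖x‖ ≤ Real.sqrt (Fintype.card (Ix N) * R ^ 2) := by
  rw [PiLp.norm_eq_of_L2]
  apply Real.sqrt_le_sqrt
  calc ∑ i, ‖x i‖ ^ 2 ≤ ∑ _i : Ix N, R ^ 2 :=
        Finset.sum_le_sum fun i _ => pow_le_pow_left₀ (norm_nonneg _) (hx i) 2
    _ = Fintype.card (Ix N) * R ^ 2 := by simp

/-- uniform lower bound of the gradient -/
private theorem exists_mu {N : ℕ} (h : ℝ) (hh : 0 ≤ h) {Hq Hp : E × E → E} {κ : E → ℝ}
    {κ' : E → E} {C s γ : ℝ} (hHq : Continuous Hq) (hHp : Continuous Hp) (hκ : Continuous κ)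
    (hκ' : Continuous κ') (hCq : ∀ z, ‖Hq z‖ ≤ C) (hCp : ∀ z, ‖Hp z‖ ≤ C)
    (hs : ∀ x, γ / 2 ≤ κ x → ‖x‖ ≤ s)
    (hne : ∀ l ∈ Icc (0 : ℝ) 1, ∀ x : Xs E N, γ / 2 ≤ κ (x (Sum.inl ())) →
      Gf h Hq Hp x + l • Gk κ' x ≠ 0) :
    ∃ μ > 0, ∀ l ∈ Icc (0 : ℝ) 1, ∀ x : Xs E N, γ / 2 ≤ κ (x (Sum.inl ())) →
      μ ≤ ‖Gf h Hq Hp x + l • Gk κ' x‖ := by
  have hC0 : 0 ≤ C := (norm_nonneg _).trans (hCq 0)
  let Φ : ℝ × Xs E N → ℝ := fun y => ‖Gf h Hq Hp y.2 + y.1 • Gk κ' y.2‖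
  have hΦ : Continuous Φ := by
    refine Continuous.norm (((Gf_cont h hHq hHp).comp continuous_snd).add
      (continuous_fst.smul ((Gk_cont hκ').comp continuous_snd)))
  let S : Set (ℝ × Xs E N) := {y | y.1 ∈ Icc (0 : ℝ) 1 ∧ γ / 2 ≤ κ (y.2 (Sum.inl ())) ∧ Φ y ≤ 1}
  have hSc : IsClosed S := by
    refine (isClosed_Icc.preimage continuous_fst).inter (IsClosed.inter ?_ ?_)
    · have hc : Continuous fun y : ℝ × Xs E N => y.2 (Sum.inl ()) := by fun_prop
      exact isClosed_le continuous_const (hκ.comp hc)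
    · exact isClosed_le hΦ continuous_const
  let R : ℝ := max s (1 + h * (N * C) + h * C)
  have hSb : S ⊆ Icc (0 : ℝ) 1 ×ˢ closedBall (0 : Xs E N)
      (Real.sqrt (Fintype.card (Ix N) * R ^ 2)) := by
    rintro ⟨l, x⟩ ⟨hl, hx, hx1⟩
    refine ⟨hl, ?_⟩
    rw [mem_closedBall, dist_zero_right]
    apply norm_le_of_comp
    have hbd : ∀ s, ‖(Gf h Hq Hp x + l • Gk κ' x) s‖ ≤ 1 := fun s =>
      (comp_le _ s).trans hx1
    rintro (a | k | k)
    · exact (hs _ hx).trans (le_max_left _ _)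
    · refine le_trans ?_ (le_max_right _ _)
      have h1 := hbd (Sum.inr (Sum.inr k))
      rw [Gcomp_p] at h1
      have h2 : ‖h • Hp (zz x k)‖ ≤ h * C := by
        rw [norm_smul, Real.norm_eq_abs, abs_of_nonneg hh]
        exact mul_le_mul_of_nonneg_left (hCp _) hh
      have h3 : ‖x (Sum.inr (Sum.inl k))‖ ≤
          ‖x (Sum.inr (Sum.inl k)) + h • Hp (zz x k)‖ + ‖h • Hp (zz x k)‖ :=
        norm_le_add_norm_add _ _
      have h4 : 0 ≤ h * (N * C) := by positivity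
      linarith
    · refine le_trans ?_ (le_max_right _ _)
      have h1 := hbd (Sum.inr (Sum.inl k))
      rw [Gcomp_u] at h1
      set v := h • (∑ j : Fin N, if (j : ℕ) ≤ k then Hq (zz x j) else 0) with hv
      have h2 : ‖v‖ ≤ h * (N * C) := by
        rw [hv, norm_smul, Real.norm_eq_abs, abs_of_nonneg hh]
        refine mul_le_mul_of_nonneg_left ?_ hh
        refine (norm_sum_le _ _).trans ?_
        have : ∀ j ∈ (Finset.univ : Finset (Fin N)),
            ‖(if (j : ℕ) ≤ k then Hq (zz x j) else 0)‖ ≤ C := by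
          intro j _
          split_ifs
          · exact hCq _
          · simpa using hC0
        refine (Finset.sum_le_card_nsmul _ _ _ this).trans ?_
        simp
      have h3 : ‖x (Sum.inr (Sum.inr k))‖ ≤ ‖x (Sum.inr (Sum.inr k)) + v‖ + ‖v‖ :=
        norm_le_add_norm_add _ _
      have h4 : 0 ≤ h * C := by positivity
      linarith
  have hScomp : IsCompact S :=
    (isCompact_Icc.prod (isCompact_closedBall _ _)).of_isClosed_subset hSc hSb
  rcases S.eq_empty_or_nonempty with hE | hE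
  · refine ⟨1, one_pos, fun l hl x hx => ?_⟩
    by_contra hlt
    push Not at hlt
    have : (l, x) ∈ S := ⟨hl, hx, hlt.le⟩
    rw [hE] at this
    exact this
  · obtain ⟨y, hy, hmin⟩ := hScomp.exists_isMinOn hE hΦ.continuousOn
    have hpos : 0 < Φ y := norm_pos_iff.mpr (hne _ hy.1 _ hy.2.1)
    refine ⟨min 1 (Φ y), lt_min one_pos hpos, fun l hl x hx => ?_⟩
    rcases le_total (‖Gf h Hq Hp x + l • Gk κ' x‖) 1 with h1 | h1
    · have h2 : (l, x) ∈ S := ⟨hl, hx, h1⟩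
      have h3 : Φ y ≤ Φ (l, x) := isMinOn_iff.mp hmin (l, x) h2
      exact (min_le_right _ _).trans h3
    · exact (min_le_left _ _).trans h1

/-- The discrete local positivity theorem. -/
theorem discrete {H : E × E → ℝ} {Hq Hp : E × E → E} {κ : E → ℝ} {κ' : E → E}
    {LH Lκ c C M M' γ s : ℝ} (hLH : 0 ≤ LH) (hLκ : 0 ≤ Lκ) (hM : 0 ≤ M) (hγ : 0 < γ)
    (hHq : Continuous Hq) (hHp : Continuous Hp) (hκ : Continuous κ) (hκ' : Continuous κ')
    (hCq : ∀ z, ‖Hq z‖ ≤ C) (hCp : ∀ z, ‖Hp z‖ ≤ C) (hHc : ∀ z, |H z| ≤ c)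
    (hH : ∀ z v : E × E, H (z + v) ≤ H z + ⟪Hq z, v.1⟫ + ⟪Hp z, v.2⟫ +
      LH * (‖v.1‖ ^ 2 + ‖v.2‖ ^ 2))
    (hκ0 : ∀ x, 0 ≤ κ x) (hκ1 : ∀ x, κ x ≤ M') (hκL : ∀ x w, κ (x + w) ≤ κ x + M * ‖w‖)
    (hκT : ∀ x w, κ (x + w) ≤ κ x + ⟪κ' x, w⟫ + Lκ * ‖w‖ ^ 2)
    (hs : ∀ x, γ / 2 ≤ κ x → ‖x‖ ≤ s ∧ ‖κ' x‖ ≤ s) (hc : 2 * c + γ < κ 0)
    (N : ℕ) (hN : 1 ≤ N) :
    ∃ Q P : ℕ → E, P 0 = 0 ∧ (∀ j < N, Q (j + 1) = Q j + (1 / (N : ℝ)) • Hp (Q j, P (j + 1)) ∧
      P (j + 1) = P j - (1 / (N : ℝ)) • Hq (Q j, P (j + 1))) ∧ ‖Q N‖ ≤ s ∧ ‖P N‖ ≤ s := by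
  set h : ℝ := 1 / (N : ℝ) with hh
  have hN0 : (0 : ℝ) < N := by exact_mod_cast hN
  have hh0 : 0 ≤ h := by positivity
  have hNh : (N : ℝ) * h = 1 := by rw [hh]; field_simp
  by_contra hcon
  have hne : ∀ l ∈ Icc (0 : ℝ) 1, ∀ x : Xs E N, γ / 2 ≤ κ (x (Sum.inl ())) →
      Gf h Hq Hp x + l • Gk κ' x ≠ 0 := by
    intro l hl x hx h0
    apply hcon
    obtain ⟨Q, P, h1, h2, h3, h4⟩ := crit_traj h l Hq Hp κ' x h0
    refine ⟨Q, P, h1, h2, ?_, ?_⟩
    · rw [h3]
      exact (hs _ hx).1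
    · rw [h4, norm_smul, Real.norm_eq_abs, abs_of_nonneg hl.1]
      have h5 := (hs _ hx).2
      have h6 := mul_le_mul_of_nonneg_right hl.2 (norm_nonneg (κ' (x (Sum.inl ()))))
      linarith
  obtain ⟨μ, hμ, hμ'⟩ := exists_mu h hh0 hHq hHp hκ hκ' hCq hCp (fun x hx => (hs x hx).1) hne
  have hq : Continuous fun x : Xs E N => x (Sum.inl ()) := by fun_prop
  let iL : (E × (Fin N → E)) →ₗ[ℝ] Xs E N :=
    { toFun := fun a => mk a.1 (fun k => -(a.2 k)) a.2
      map_add' := by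
        intro a b
        ext s
        rcases s with s | s | s
        · rfl
        · show -(a.2 s + b.2 s) = -(a.2 s) + -(b.2 s)
          abel
        · rfl
      map_smul' := by
        intro r a
        ext s
        rcases s with s | s | s
        · rfl
        · show -(r • a.2 s) = r • -(a.2 s)
          rw [smul_neg]
        · rfl }
  let TL : Xs E N →ₗ[ℝ] (E × (Fin N → E)) :=
    { toFun := fun x => (x (Sum.inl ()), fun k => x (Sum.inr (Sum.inr k)) - x (Sum.inr (Sum.inl k)))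
      map_add' := by
        intro a b
        refine Prod.ext rfl (funext fun k => ?_)
        show (a (Sum.inr (Sum.inr k)) + b (Sum.inr (Sum.inr k))) -
          (a (Sum.inr (Sum.inl k)) + b (Sum.inr (Sum.inl k))) = _ + _
        exact add_sub_add_comm _ _ _ _
      map_smul' := by
        intro r a
        refine Prod.ext rfl (funext fun k => ?_)
        show r • a (Sum.inr (Sum.inr k)) - r • a (Sum.inr (Sum.inl k)) = r • (_ - _)
        rw [smul_sub] }
  let SL : (E × (Fin N → E)) ≃ₗ[ℝ] (E × (Fin N → E)) :=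
    (LinearEquiv.refl ℝ E).prodCongr (LinearEquiv.smulOfNeZero ℝ (Fin N → E) (2 : ℝ) two_ne_zero)
  have hres := minimax (A := E × (Fin N → E)) (X := Xs E N) (Ff h H)
    (fun x => κ (x (Sum.inl ()))) (Gf h Hq Hp) (Gk κ') (Gf_cont h hHq hHp) (Gk_cont hκ')
    (hκ.comp hq) (N * (1 + h * LH * ((N + 1) ^ 2 + 1)) + Lκ) M M' μ γ (by positivity) hM hμ hγ
    (by
      intro l hl x w
      have e1 := taylorF h hh0 hLH hH x w
      have e2 := hκT (x (Sum.inl ())) (w (Sum.inl ()))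
      have e3 : (x + w) (Sum.inl ()) = x (Sum.inl ()) + w (Sum.inl ()) := rfl
      have e4 : ⟪Gk κ' x, w⟫ = ⟪κ' (x (Sum.inl ())), w (Sum.inl ())⟫ := by
        unfold Gk
        rw [inner_mk]
        simp
      have e5 : ‖w (Sum.inl ())‖ ^ 2 ≤ ‖w‖ ^ 2 :=
        pow_le_pow_left₀ (norm_nonneg _) (comp_le w _) 2
      have e6 : l * κ (x (Sum.inl ()) + w (Sum.inl ())) ≤ l * κ (x (Sum.inl ())) +
          l * ⟪κ' (x (Sum.inl ())), w (Sum.inl ())⟫ + Lκ * ‖w‖ ^ 2 := by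
        have a1 := mul_le_mul_of_nonneg_left e2 hl.1
        have a2 : l * (Lκ * ‖w (Sum.inl ())‖ ^ 2) ≤ Lκ * ‖w‖ ^ 2 := by
          have b1 : Lκ * ‖w (Sum.inl ())‖ ^ 2 ≤ Lκ * ‖w‖ ^ 2 :=
            mul_le_mul_of_nonneg_left e5 hLκ
          have b2 : 0 ≤ Lκ * ‖w (Sum.inl ())‖ ^ 2 := by positivity
          have b3 := mul_le_mul_of_nonneg_right hl.2 b2
          linarith
        nlinarith
      rw [inner_add_left, real_inner_smul_left, e4]
      show Ff h H (x + w) + l * κ ((x + w) (Sum.inl ())) ≤ _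
      rw [e3]
      nlinarith)
    (fun x => hκ0 _) (fun x => hκ1 _)
    (by
      intro x w
      have e1 := hκL (x (Sum.inl ())) (w (Sum.inl ()))
      have e2 := mul_le_mul_of_nonneg_left (comp_le w (Sum.inl ())) hM
      show κ (x (Sum.inl ()) + w (Sum.inl ())) ≤ _
      linarith)
    hμ' (LinearMap.toContinuousLinearMap iL) (LinearMap.toContinuousLinearMap TL)
    SL.toContinuousLinearEquiv
    (by
      intro a
      refine Prod.ext rfl (funext fun k => ?_)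
      show a.2 k - -(a.2 k) = (2 : ℝ) • a.2 k
      rw [two_smul, sub_neg_eq_add])
    c (κ 0 - c)
    (by
      intro a
      show Ff h H (mk a.1 (fun k => -(a.2 k)) a.2) ≤ c
      unfold Ff
      have : ∀ j ∈ (Finset.univ : Finset (Fin N)),
          ⟪(mk a.1 (fun k => -(a.2 k)) a.2 : Xs E N) (Sum.inr (Sum.inr j)),
            (mk a.1 (fun k => -(a.2 k)) a.2 : Xs E N) (Sum.inr (Sum.inl j))⟫ +
            h * H (zz (mk a.1 (fun k => -(a.2 k)) a.2) j) ≤ h * c := by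
        intro j _
        have e1 : ⟪(mk a.1 (fun k => -(a.2 k)) a.2 : Xs E N) (Sum.inr (Sum.inr j)),
            (mk a.1 (fun k => -(a.2 k)) a.2 : Xs E N) (Sum.inr (Sum.inl j))⟫ =
            -‖a.2 j‖ ^ 2 := by
          show ⟪a.2 j, -(a.2 j)⟫ = _
          rw [inner_neg_right, real_inner_self_eq_norm_sq]
        rw [e1]
        have e2 := mul_le_mul_of_nonneg_left
          ((le_abs_self _).trans (hHc (zz (mk a.1 (fun k => -(a.2 k)) a.2) j))) hh0
        have e3 := sq_nonneg ‖a.2 j‖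
        linarith
      refine (Finset.sum_le_sum this).trans ?_
      simp only [Finset.sum_const, Finset.card_univ, Fintype.card_fin, nsmul_eq_mul]
      rw [← mul_assoc, hNh, one_mul])
    (by
      intro x hx
      have hx1 : x (Sum.inl ()) = 0 := congrArg Prod.fst hx
      have hx2 : ∀ k, x (Sum.inr (Sum.inr k)) = x (Sum.inr (Sum.inl k)) := fun k =>
        sub_eq_zero.mp (congrFun (congrArg Prod.snd hx) k)
      show κ 0 - c ≤ Ff h H x + κ (x (Sum.inl ()))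
      rw [hx1]
      unfold Ff
      have : ∀ j ∈ (Finset.univ : Finset (Fin N)), -(h * c) ≤
          ⟪x (Sum.inr (Sum.inr j)), x (Sum.inr (Sum.inl j))⟫ + h * H (zz x j) := by
        intro j _
        rw [hx2, real_inner_self_eq_norm_sq]
        have e2 := mul_le_mul_of_nonneg_left ((abs_le.mp (hHc (zz x j))).1) hh0
        have e3 := sq_nonneg ‖x (Sum.inr (Sum.inl j))‖
        linarith
      have e4 := Finset.sum_le_sum this
      simp only [Finset.sum_const, Finset.card_univ, Fintype.card_fin, nsmul_eq_mul] at e4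
      have e5 : (N : ℝ) * -(h * c) = -c := by
        rw [mul_neg, ← mul_assoc, hNh, one_mul]
      rw [e5] at e4
      linarith)
  linarith

end CoP
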