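import Mathlib

/-!
# CoP.A.Euler (about 150 lines): Euler error estimate

`X : E → E` Lipschitz with constant `K` and bounded by `C`; `z : ℕ → E` with `‖z (j+1) - z j - h X (z j)‖ ≤ B h ^ 2` for `j < N`, `h = 1/N`. Then there is an exact solution `ζ` on `[0,1]` with `ζ 0 = z 0` and `‖z N - ζ 1‖ ≤ (B + K C) e^K / N`.
* existence: `IsPicardLindelof` on `Icc 0 1`, center `z 0`, radius `C` (or `C + 1`).
* `‖ζ (t + h) - ζ t - h X (ζ t)‖ ≤ K C h ^ 2`: the function `s ↦ ζ s - s X (ζ t)` has derivative `X (ζ s) - X (ζ t)` of norm `≤ K ‖ζ s - ζ t‖ ≤ K C h` on `[t, t + h]` (`norm_image_sub_le_of_norm_deriv_le_segment'`).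
* `e_j = ‖z j - ζ (j h)‖` satisfies `e_{j+1} ≤ (1 + h K) e_j + (B + K C) h ^ 2`, so `e_j ≤ j (B + K C) h ^ 2 (1 + h K) ^ j` by induction and `(1 + h K) ^ N ≤ exp K` (`Real.add_one_le_exp`).
-/

open Set Filter Metric
open scoped NNReal

namespace CoP

private theorem euler_exists {E : Type*} [NormedAddCommGroup E] [NormedSpace ℝ E] [CompleteSpace E]
    {X : E → E} {K : ℝ≥0} {C : ℝ} (hX : LipschitzWith K X) (hC : ∀ z, ‖X z‖ ≤ C) (x0 : E) :
    ∃ ζ : ℝ → E, (∀ t ∈ Icc (0 : ℝ) 1, HasDerivWithinAt ζ (X (ζ t)) (Icc 0 1) t) ∧ ζ 0 = x0 := by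
  have hC0 : 0 ≤ C := (norm_nonneg _).trans (hC x0)
  have h1 : IsPicardLindelof (fun _ => X) (tmin := 0) (tmax := 1) ⟨0, by simp⟩ x0 ⟨C, hC0⟩ 0 ⟨C, hC0⟩ K := by
    apply IsPicardLindelof.of_time_independent
    · intro x _
      exact hC x
    · exact hX.lipschitzOnWith
    · simp
  obtain ⟨ζ, h2, h3⟩ := h1.exists_eq_forall_mem_Icc_hasDerivWithinAt₀
  exact ⟨ζ, h3, h2⟩

private theorem euler_step {E : Type*} [NormedAddCommGroup E] [NormedSpace ℝ E]
    {X : E → E} {K : ℝ≥0} {C : ℝ} (hX : LipschitzWith K X) (hC : ∀ z, ‖X z‖ ≤ C)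
    {ζ : ℝ → E} (hζ : ∀ t ∈ Icc (0 : ℝ) 1, HasDerivWithinAt ζ (X (ζ t)) (Icc 0 1) t)
    {t h : ℝ} (ht : 0 ≤ t) (hh : 0 ≤ h) (hth : t + h ≤ 1) :
    ‖ζ (t + h) - ζ t - h • X (ζ t)‖ ≤ K * C * h ^ 2 := by
  have hsub : Icc t (t + h) ⊆ Icc (0 : ℝ) 1 := Icc_subset_Icc ht hth
  have hd : ∀ s ∈ Icc t (t + h), HasDerivWithinAt ζ (X (ζ s)) (Icc t (t + h)) s :=
    fun s hs => (hζ s (hsub hs)).mono hsub
  have h1 : ∀ s ∈ Icc t (t + h), ‖ζ s - ζ t‖ ≤ C * (s - t) :=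
    norm_image_sub_le_of_norm_deriv_le_segment' hd (fun s _ => hC _)
  have h2 : ∀ s ∈ Icc t (t + h), HasDerivWithinAt (fun s => ζ s - s • X (ζ t)) (X (ζ s) - X (ζ t))
      (Icc t (t + h)) s := by
    intro s hs
    have h3 := ((hasDerivWithinAt_id s (Icc t (t + h))).smul_const (X (ζ t)))
    have h4 : HasDerivWithinAt (fun s => ζ s - s • X (ζ t)) (X (ζ s) - (1 : ℝ) • X (ζ t))
        (Icc t (t + h)) s := (hd s hs).sub h3
    rwa [one_smul] at h4
  have h5 := norm_image_sub_le_of_norm_deriv_le_segment' h2 (C := K * C * h) (by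
    intro s hs
    have h6 := hX.norm_sub_le (ζ s) (ζ t)
    have h7 := h1 s (Ico_subset_Icc_self hs)
    have hC0 : 0 ≤ C := (norm_nonneg _).trans (hC (ζ t))
    calc ‖X (ζ s) - X (ζ t)‖ ≤ K * ‖ζ s - ζ t‖ := h6
      _ ≤ K * (C * (s - t)) := by gcongr
      _ ≤ K * (C * h) := by
        gcongr
        linarith [hs.2]
      _ = K * C * h := by ring) (t + h) ⟨by linarith, le_rfl⟩
  have e : ζ (t + h) - ζ t - h • X (ζ t) = (ζ (t + h) - (t + h) • X (ζ t)) - (ζ t - t • X (ζ t)) := by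
    rw [add_smul]
    abel
  rw [e]
  calc _ ≤ K * C * h * (t + h - t) := h5
    _ = K * C * h ^ 2 := by ring

theorem euler {E : Type*} [NormedAddCommGroup E] [NormedSpace ℝ E] [CompleteSpace E]
    {X : E → E} {K : ℝ≥0} {C B : ℝ} (hX : LipschitzWith K X) (hC : ∀ z, ‖X z‖ ≤ C) (hB : 0 ≤ B)
    {N : ℕ} (hN : 1 ≤ N) {z : ℕ → E}
    (hz : ∀ j < N, ‖z (j + 1) - z j - (1 / (N : ℝ)) • X (z j)‖ ≤ B * (1 / (N : ℝ)) ^ 2) :
    ∃ ζ : ℝ → E, (∀ t ∈ Icc (0 : ℝ) 1, HasDerivWithinAt ζ (X (ζ t)) (Icc 0 1) t) ∧ ζ 0 = z 0 ∧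
      ‖z N - ζ 1‖ ≤ (B + K * C) * Real.exp K / N := by
  obtain ⟨ζ, h1, h2⟩ := euler_exists hX hC (z 0)
  refine ⟨ζ, h1, h2, ?_⟩
  have hC0 : 0 ≤ C := (norm_nonneg _).trans (hC (z 0))
  have hN0 : (0 : ℝ) < N := by exact_mod_cast hN
  obtain ⟨h, hh⟩ : ∃ h : ℝ, h = 1 / (N : ℝ) := ⟨_, rfl⟩
  have hh0 : 0 < h := by rw [hh]; positivity
  have hNh : (N : ℝ) * h = 1 := by rw [hh]; field_simp
  rw [← hh] at hz
  have hK0 : (0 : ℝ) ≤ K := K.2
  have key : ∀ j : ℕ, j ≤ N → ‖z j - ζ (j * h)‖ ≤ j * (B + K * C) * h ^ 2 * (1 + h * K) ^ j := by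
    intro j
    induction j with
    | zero =>
      intro _
      simp [h2]
    | succ j ih =>
      intro hj
      have ih' := ih (by omega)
      have hjN : ((j : ℝ) + 1) * h ≤ 1 := by
        have hj' : (j : ℝ) + 1 ≤ N := by exact_mod_cast hj
        calc ((j : ℝ) + 1) * h ≤ N * h := by gcongr
          _ = 1 := hNh
      have h3 := euler_step hX hC h1 (t := j * h) (h := h) (by positivity) hh0.le (by linarith)
      have h4 := hz j (by omega)
      have h5 := hX.norm_sub_le (z j) (ζ (j * h))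
      have e : z (j + 1) - ζ ((j + 1 : ℕ) * h) = (z (j + 1) - z j - h • X (z j)) -
          (ζ (j * h + h) - ζ (j * h) - h • X (ζ (j * h))) + (z j - ζ (j * h)) +
          h • (X (z j) - X (ζ (j * h))) := by
        have e1 : ((j + 1 : ℕ) : ℝ) * h = j * h + h := by push_cast; ring
        rw [e1, smul_sub]
        abel
      rw [e]
      have h6 : ‖h • (X (z j) - X (ζ (j * h)))‖ ≤ h * (K * ‖z j - ζ (j * h)‖) := by
        rw [norm_smul, Real.norm_of_nonneg hh0.le]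
        gcongr
      have h7 : (1 : ℝ) ≤ (1 + h * K) ^ (j + 1) := one_le_pow₀ (by nlinarith)
      have hBC : 0 ≤ (B + K * C) * h ^ 2 := by positivity
      calc _ ≤ ‖(z (j + 1) - z j - h • X (z j)) - (ζ (j * h + h) - ζ (j * h) - h • X (ζ (j * h)))
              + (z j - ζ (j * h))‖ + ‖h • (X (z j) - X (ζ (j * h)))‖ := norm_add_le _ _
        _ ≤ (‖z (j + 1) - z j - h • X (z j)‖ + ‖ζ (j * h + h) - ζ (j * h) - h • X (ζ (j * h))‖
              + ‖z j - ζ (j * h)‖) + ‖h • (X (z j) - X (ζ (j * h)))‖ := by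
            gcongr
            exact (norm_add_le _ _).trans (by gcongr; exact norm_sub_le _ _)
        _ ≤ (B * h ^ 2 + K * C * h ^ 2 + ‖z j - ζ (j * h)‖) + h * (K * ‖z j - ζ (j * h)‖) := by
            gcongr
        _ = (B + K * C) * h ^ 2 + (1 + h * K) * ‖z j - ζ (j * h)‖ := by ring
        _ ≤ (B + K * C) * h ^ 2 * (1 + h * K) ^ (j + 1) +
              (1 + h * K) * (j * (B + K * C) * h ^ 2 * (1 + h * K) ^ j) :=
            add_le_add (le_mul_of_one_le_right hBC h7) (mul_le_mul_of_nonneg_left ih' (by positivity))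
        _ = ((j + 1 : ℕ) : ℝ) * (B + K * C) * h ^ 2 * (1 + h * K) ^ (j + 1) := by
            push_cast
            ring
  have h8 := key N le_rfl
  rw [hNh] at h8
  have h9 : (1 + h * K) ^ N ≤ Real.exp K := by
    calc (1 + h * K) ^ N ≤ (Real.exp (h * K)) ^ N := by
          gcongr
          linarith [Real.add_one_le_exp (h * K)]
      _ = Real.exp K := by
          rw [← Real.exp_nat_mul]
          congr 1
          rw [← mul_assoc, hNh, one_mul]
  calc ‖z N - ζ 1‖ ≤ N * (B + K * C) * h ^ 2 * (1 + h * K) ^ N := h8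
    _ ≤ N * (B + K * C) * h ^ 2 * Real.exp K := by gcongr
    _ = (B + K * C) * Real.exp K / N := by
      rw [hh]
      field_simp

end CoP
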