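import Mathlib
import Pool.Agent.Lib.CoP.Defs
import Pool.Agent.Lib.CoP.A.Discrete
import Pool.Agent.Lib.CoP.A.Euler

/-!
# CoP.A.LR (about 250 lines): local positivity (theorem LR')

Put `E = EuclideanSpace ℝ (Fin n)`; `Z n` and `E × E` are identified by `WithLp.equiv`/`EuclideanSpace.equiv` (continuous linear equivalence `e : (E × E) ≃L[ℝ] Z n`). Choose the bump: `b : ContDiffBump (0 : E)` with `rIn = r'/2`, `rOut = r'` (`r'` so small that `‖q‖, ‖p‖ ≤ r'` in `E` implies `‖e (q, p)‖ ≤ r/2`; `r' = r/2` works since the sup norm is at most the euclidean norm), `κ = σ b` with `σ > 0` so small that `‖∇κ‖ ≤ r'`; `κ' = ` gradient of `κ` (`(InnerProductSpace.toDual ℝ E).symm (fderiv ℝ κ q)`); `γ = σ/4`, `c = σ/4`: `2 c + γ = 3σ/4 < σ = κ 0`; `κ q ≥ γ/2 > 0` implies `‖q‖ < r'` (support) and `‖κ' q‖ ≤ r'`. Constants: `κ` smooth with compact support: Lipschitz, and `κ (q + w) ≤ κ q + ⟪κ' q, w⟫ + Lκ ‖w‖²` (`fderiv κ` is Lipschitz: `ContDiff.lipschitzWith_of_hasCompactSupport`).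
Given `H`: `H̃ = H ∘ e : E × E → ℝ` is smooth with compact support, `Hq z = (toDual).symm (fderiv H̃ z ∘ inl)`, `Hp z = (toDual).symm (fderiv H̃ z ∘ inr)`, Lipschitz and bounded, Taylor estimate as for `κ`. `discrete` gives for every `N` the sequences `Q, P`; `z j = (Q j, P j)` satisfies `‖z (j+1) - z j - (1/N) X (z j)‖ ≤ B (1/N)²` with `X = (Hp, -Hq)`, `B = Lip(X) * C` since `‖P (j+1) - P j‖ ≤ C/N`. `euler` and `N` large: `‖ζ 1‖ ≤ r'+ r'`... (`‖z N‖ ≤ r'`, error `≤ r'`). Transport by `e`: `XH H (e z) = e (Hp z, -Hq z)` (coordinates: `gP H (e z) i = fderiv H̃ z (0, single i 1) = (Hp z) i`).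
-/

open Set Filter Metric
open scoped Topology ContDiff

noncomputable section

namespace CoP

/-- quadratic Taylor estimate for a smooth function with compact support -/
private theorem lr_taylor {V : Type*} [NormedAddCommGroup V] [NormedSpace ℝ V] {f : V → ℝ}
    (hf : ContDiff ℝ ∞ f) (hc : HasCompactSupport f) :
    ∃ L : ℝ, 0 ≤ L ∧ ∀ x w : V, f (x + w) ≤ f x + fderiv ℝ f x w + L * ‖w‖ ^ 2 := by
  have h1 : ContDiff ℝ ∞ (fderiv ℝ f) := hf.fderiv_right (by simp)
  obtain ⟨K, hK⟩ := h1.lipschitzWith_of_hasCompactSupport (hc.fderiv ℝ) (by simp)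
  refine ⟨K, K.2, fun x w => ?_⟩
  have hx : x ∈ closedBall x ‖w‖ := mem_closedBall_self (norm_nonneg _)
  have hy : x + w ∈ closedBall x ‖w‖ := by
    rw [mem_closedBall, dist_eq_norm, add_sub_cancel_left]
  have h2 := (convex_closedBall x ‖w‖).norm_image_sub_le_of_norm_fderiv_le' (𝕜 := ℝ) (f := f)
    (φ := fderiv ℝ f x) (C := K * ‖w‖) (fun y _ => (hf.differentiable (by simp)).differentiableAt)
    (fun y hy => by
      have h3 := hK.dist_le_mul y x
      rw [dist_eq_norm] at h3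
      refine h3.trans (mul_le_mul_of_nonneg_left ?_ K.2)
      exact hy) hx hy
  rw [add_sub_cancel_left, Real.norm_eq_abs] at h2
  have h4 := (le_abs_self _).trans h2
  have h5 : (K : ℝ) * ‖w‖ * ‖w‖ = K * ‖w‖ ^ 2 := by ring
  rw [h5] at h4
  linarith

/-- the coordinates -/
private def lrE (n : ℕ) : (EuclideanSpace ℝ (Fin n) × EuclideanSpace ℝ (Fin n)) ≃L[ℝ] Z n :=
  (EuclideanSpace.equiv (Fin n) ℝ).prodCongr (EuclideanSpace.equiv (Fin n) ℝ)

private theorem lrE_fst (n : ℕ) (z : EuclideanSpace ℝ (Fin n) × EuclideanSpace ℝ (Fin n))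
    (i : Fin n) : (lrE n z).1 i = z.1 i := rfl

private theorem lrE_snd (n : ℕ) (z : EuclideanSpace ℝ (Fin n) × EuclideanSpace ℝ (Fin n))
    (i : Fin n) : (lrE n z).2 i = z.2 i := rfl

private theorem lr_norm (n : ℕ) (z : EuclideanSpace ℝ (Fin n) × EuclideanSpace ℝ (Fin n)) :
    ‖lrE n z‖ ≤ ‖z‖ := by
  rw [Prod.norm_def, Prod.norm_def]
  refine max_le_max ?_ ?_
  · refine (pi_norm_le_iff_of_nonneg (norm_nonneg _)).2 fun i => ?_
    rw [lrE_fst]
    exact PiLp.norm_apply_le _ _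
  · refine (pi_norm_le_iff_of_nonneg (norm_nonneg _)).2 fun i => ?_
    rw [lrE_snd]
    exact PiLp.norm_apply_le _ _

/-- a linear form on `Z n` in coordinates -/
private theorem lr_form {n : ℕ} (φ : Z n →L[ℝ] ℝ) (a b : Fin n → ℝ) :
    φ (a, b) = ∑ i, φ (Pi.single i 1, 0) * a i + ∑ i, φ (0, Pi.single i 1) * b i := by
  have h1 : (a, b) = (a, (0 : Fin n → ℝ)) + ((0 : Fin n → ℝ), b) := by simp
  have h2 : ∀ a : Fin n → ℝ, φ (a, 0) = ∑ i, φ (Pi.single i 1, 0) * a i := by
    intro a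
    have h3 : (φ (a, 0) : ℝ) = (φ.comp (ContinuousLinearMap.inl ℝ _ _)) a := rfl
    rw [h3]
    conv_lhs => rw [← Finset.univ_sum_single a, map_sum]
    refine Finset.sum_congr rfl fun i _ => ?_
    have h4 : (Pi.single i (a i) : Fin n → ℝ) = a i • Pi.single i (1 : ℝ) := by
      rw [← Pi.single_smul, smul_eq_mul, mul_one]
    rw [h4, map_smul, smul_eq_mul, mul_comm]
    rfl
  have h2' : ∀ a : Fin n → ℝ, φ (0, a) = ∑ i, φ (0, Pi.single i 1) * a i := by
    intro a
    have h3 : (φ (0, a) : ℝ) = (φ.comp (ContinuousLinearMap.inr ℝ _ _)) a := rfl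
    rw [h3]
    conv_lhs => rw [← Finset.univ_sum_single a, map_sum]
    refine Finset.sum_congr rfl fun i _ => ?_
    have h4 : (Pi.single i (a i) : Fin n → ℝ) = a i • Pi.single i (1 : ℝ) := by
      rw [← Pi.single_smul, smul_eq_mul, mul_one]
    rw [h4, map_smul, smul_eq_mul, mul_comm]
    rfl
  rw [h1, map_add, h2, h2']

private theorem lr_XH {n : ℕ} {H : Z n → ℝ} (hH : ContDiff ℝ ∞ H) (hc : HasCompactSupport H) :
    ContDiff ℝ ∞ (XH H) ∧ HasCompactSupport (XH H) := by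
  have h1 : ContDiff ℝ ∞ (fderiv ℝ H) := hH.fderiv_right (by simp)
  constructor
  · refine ContDiff.prodMk ?_ ?_
    · refine contDiff_pi.2 fun i => ?_
      exact h1.clm_apply contDiff_const
    · refine contDiff_pi.2 fun i => ?_
      exact (h1.clm_apply contDiff_const).neg
  · have h2 : XH H = (fun φ : Z n →L[ℝ] ℝ => (((fun i => φ (0, Pi.single i 1)),
        (fun i => -φ (Pi.single i 1, 0))) : Z n)) ∘ fderiv ℝ H := rfl
    rw [h2]
    refine (hc.fderiv ℝ).comp_left ?_
    simp only [ContinuousLinearMap.zero_apply, neg_zero]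
    rfl

theorem lrPrime {n : ℕ} {r : ℝ} (hr : 0 < r) :
    ∃ c > 0, ∀ H : Z n → ℝ, ContDiff ℝ ∞ H → HasCompactSupport H → (∀ z, |H z| ≤ c) →
      ∃ z : ℝ → Z n, (∀ t ∈ Icc (0 : ℝ) 1, HasDerivWithinAt z (XH H (z t)) (Icc 0 1) t) ∧
        (z 0).2 = 0 ∧ ‖z 1‖ ≤ r := by
  -- the bump function
  set r' : ℝ := r / 2 with hr'
  have hr'0 : 0 < r' := by linarith
  let b : ContDiffBump (0 : EuclideanSpace ℝ (Fin n)) := ⟨r' / 2, r', by linarith, by linarith⟩
  have hbs : ContDiff ℝ ∞ (b : EuclideanSpace ℝ (Fin n) → ℝ) := b.contDiff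
  have hbc : HasCompactSupport (b : EuclideanSpace ℝ (Fin n) → ℝ) := b.hasCompactSupport
  obtain ⟨Bb, hBb⟩ := (hbs.continuous_fderiv (by simp)).bounded_above_of_compact_support
    (hbc.fderiv ℝ)
  have hBb0 : 0 ≤ Bb := (norm_nonneg _).trans (hBb 0)
  set σ : ℝ := r' / (Bb + 1) with hσ
  have hσ0 : 0 < σ := by positivity
  have hσB : σ * Bb ≤ r' := by
    rw [hσ, div_mul_eq_mul_div, div_le_iff₀ (by linarith)]
    nlinarith
  set κ : EuclideanSpace ℝ (Fin n) → ℝ := fun q => σ * b q with hκdef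
  have hκs : ContDiff ℝ ∞ κ := contDiff_const.mul hbs
  have hκc : HasCompactSupport κ := hbc.mul_left
  have hκd : ∀ q, fderiv ℝ κ q = σ • fderiv ℝ b q := fun q =>
    fderiv_const_mul (hbs.differentiable (by simp)).differentiableAt σ
  set κ' : EuclideanSpace ℝ (Fin n) → EuclideanSpace ℝ (Fin n) :=
    fun q => (InnerProductSpace.toDual ℝ _).symm (fderiv ℝ κ q) with hκ'def
  have hκ'n : ∀ q, ‖κ' q‖ ≤ r' := by
    intro q
    rw [hκ'def]
    simp only [LinearIsometryEquiv.norm_map]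
    rw [hκd, norm_smul, Real.norm_of_nonneg hσ0.le]
    exact (mul_le_mul_of_nonneg_left (hBb q) hσ0.le).trans hσB
  have hκ'i : ∀ q w, inner ℝ (κ' q) w = fderiv ℝ κ q w := fun q w =>
    InnerProductSpace.toDual_symm_apply
  have hκ'c : Continuous κ' :=
    (InnerProductSpace.toDual ℝ _).symm.continuous.comp (hκs.continuous_fderiv (by simp))
  obtain ⟨Mκ, hMκ⟩ := hκs.lipschitzWith_of_hasCompactSupport hκc (by simp)
  obtain ⟨Lκ, hLκ0, hLκ⟩ := lr_taylor hκs hκc
  refine ⟨σ / 4, by positivity, fun H hH hHc hHb => ?_⟩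
  -- the transported Hamiltonian
  set e := lrE n with he
  obtain ⟨hXs, hXc⟩ := lr_XH hH hHc
  have hHts : ContDiff ℝ ∞ (H ∘ e) := hH.comp e.contDiff
  have hHtc : HasCompactSupport (H ∘ e) := hHc.comp_homeomorph e.toHomeomorph
  set X : EuclideanSpace ℝ (Fin n) × EuclideanSpace ℝ (Fin n) →
    EuclideanSpace ℝ (Fin n) × EuclideanSpace ℝ (Fin n) := fun z => e.symm (XH H (e z)) with hX
  have hXXs : ContDiff ℝ ∞ X := e.symm.contDiff.comp (hXs.comp e.contDiff)
  have hXXc : HasCompactSupport X := by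
    have h1 : HasCompactSupport (XH H ∘ e) := hXc.comp_homeomorph e.toHomeomorph
    exact h1.comp_left (map_zero e.symm)
  obtain ⟨K, hK⟩ := hXXs.lipschitzWith_of_hasCompactSupport hXXc (by simp)
  obtain ⟨C, hC⟩ := hXXs.continuous.bounded_above_of_compact_support hXXc
  have hC0 : 0 ≤ C := (norm_nonneg _).trans (hC 0)
  obtain ⟨LH, hLH0, hLH⟩ := lr_taylor hHts hHtc
  have hXc' := hXXs.continuous
  -- the derivative in coordinates
  have hder : ∀ z v, fderiv ℝ (H ∘ e) z v = inner ℝ (-(X z).2) v.1 + inner ℝ (X z).1 v.2 := by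
    intro z v
    have h1 : fderiv ℝ (H ∘ e) z = (fderiv ℝ H (e z)).comp
        (e : (EuclideanSpace ℝ (Fin n) × EuclideanSpace ℝ (Fin n)) →L[ℝ] Z n) := by
      rw [fderiv_comp _ (hH.differentiable (by simp)).differentiableAt
        e.differentiable.differentiableAt, e.fderiv]
    rw [h1]
    show fderiv ℝ H (e z) ((e v).1, (e v).2) = _
    rw [lr_form]
    congr 1
    · rw [PiLp.inner_apply]
      refine Finset.sum_congr rfl fun i _ => ?_
      have h2 : (-(X z).2) i = fderiv ℝ H (e z) (Pi.single i 1, 0) := by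
        show -(-(gQ H (e z) i)) = _
        rw [neg_neg]
        rfl
      rw [h2]
      exact mul_comm _ _
    · rw [PiLp.inner_apply]
      refine Finset.sum_congr rfl fun i _ => ?_
      have h2 : ((X z).1) i = fderiv ℝ H (e z) (0, Pi.single i 1) := rfl
      rw [h2]
      exact mul_comm _ _
  have hdisc : ∀ N : ℕ, 1 ≤ N → _ := fun N hN =>
    discrete (H := H ∘ e) (Hq := fun z => -(X z).2) (Hp := fun z => (X z).1) (κ := κ) (κ' := κ')
      (LH := LH) (Lκ := Lκ) (c := σ / 4) (C := C) (M := Mκ) (M' := σ) (γ := σ / 4) (s := r')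
      hLH0 hLκ0 Mκ.2 (by positivity) hXc'.snd.neg hXc'.fst hκs.continuous hκ'c
      (fun z => by rw [norm_neg]; exact (norm_snd_le _).trans (hC z))
      (fun z => (norm_fst_le _).trans (hC z)) (fun z => hHb (e z))
      (by
        intro z v
        have h1 := hLH z v
        rw [hder] at h1
        have h2 : ‖v‖ ^ 2 ≤ ‖v.1‖ ^ 2 + ‖v.2‖ ^ 2 := by
          rw [Prod.norm_def]
          rcases max_choice ‖v.1‖ ‖v.2‖ with h | h
          · rw [h]
            nlinarith [sq_nonneg ‖v.2‖]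
          · rw [h]
            nlinarith [sq_nonneg ‖v.1‖]
        have h3 := mul_le_mul_of_nonneg_left h2 hLH0
        linarith)
      (fun x => mul_nonneg hσ0.le b.nonneg)
      (fun x => mul_le_of_le_one_right hσ0.le b.le_one)
      (by
        intro x w
        have h1 := hMκ.dist_le_mul (x + w) x
        rw [dist_eq_norm, dist_eq_norm, add_sub_cancel_left, Real.norm_eq_abs] at h1
        have h2 := (le_abs_self _).trans h1
        linarith)
      (by
        intro x w
        rw [hκ'i]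
        exact hLκ x w)
      (by
        intro x hx
        refine ⟨?_, hκ'n x⟩
        have h1 : b x ≠ 0 := by
          intro h
          rw [hκdef] at hx
          simp only [h, mul_zero] at hx
          linarith
        have h2 : x ∈ Function.support b := h1
        rw [b.support_eq, mem_ball_zero_iff] at h2
        exact h2.le)
      (by
        have h1 : b (0 : EuclideanSpace ℝ (Fin n)) = 1 :=
          b.one_of_mem_closedBall (mem_closedBall_self b.rIn_pos.le)
        show 2 * (σ / 4) + σ / 4 < σ * b 0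
        rw [h1]
        linarith)
      N hN
  -- choice of `N`
  set D : ℝ := (K * C + K * C) * Real.exp K with hD
  have hD0 : 0 ≤ D := by positivity
  obtain ⟨N, hN⟩ := exists_nat_gt (D / r')
  have hN0 : (0 : ℝ) < N := (div_nonneg hD0 hr'0.le).trans_lt hN
  have hN1 : 1 ≤ N := by
    have : 0 < N := by exact_mod_cast hN0
    exact this
  have hND : D / N ≤ r' := by
    rw [div_le_iff₀ hN0]
    rw [div_lt_iff₀ hr'0] at hN
    linarith
  obtain ⟨Q, P, hP0, hQP, hQN, hPN⟩ := hdisc N hN1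
  set z : ℕ → EuclideanSpace ℝ (Fin n) × EuclideanSpace ℝ (Fin n) := fun j => (Q j, P j) with hz
  have hKC : (0 : ℝ) ≤ K * C := by positivity
  obtain ⟨ζ, hζ, hζ0, hζN⟩ := euler (z := z) hK hC hKC hN1 (by
    intro j hj
    obtain ⟨h1, h2⟩ := hQP j hj
    have h3 : z (j + 1) - z j = (1 / (N : ℝ)) • X (Q j, P (j + 1)) := by
      refine Prod.ext ?_ ?_
      · show Q (j + 1) - Q j = (1 / (N : ℝ)) • (X (Q j, P (j + 1))).1
        rw [h1, add_sub_cancel_left]
      · show P (j + 1) - P j = (1 / (N : ℝ)) • (X (Q j, P (j + 1))).2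
        conv_lhs => rw [h2]
        rw [smul_neg, sub_neg_eq_add, add_sub_cancel_left]
    have hN' : (0 : ℝ) ≤ 1 / (N : ℝ) := by positivity
    have h4 : ‖P (j + 1) - P j‖ ≤ (1 / (N : ℝ)) * C := by
      have h5 : P (j + 1) - P j = (z (j + 1) - z j).2 := rfl
      rw [h5]
      refine (norm_snd_le _).trans ?_
      rw [h3, norm_smul, Real.norm_of_nonneg hN']
      exact mul_le_mul_of_nonneg_left (hC _) hN'
    rw [h3, ← smul_sub, norm_smul, Real.norm_of_nonneg hN']
    have h6 := hK.dist_le_mul (Q j, P (j + 1)) (z j)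
    rw [dist_eq_norm, dist_eq_norm] at h6
    have h7 : ‖((Q j, P (j + 1)) : EuclideanSpace ℝ (Fin n) × EuclideanSpace ℝ (Fin n)) - z j‖ ≤
        (1 / (N : ℝ)) * C := by
      show ‖((Q j - Q j, P (j + 1) - P j) :
        EuclideanSpace ℝ (Fin n) × EuclideanSpace ℝ (Fin n))‖ ≤ _
      rw [Prod.norm_mk, sub_self, norm_zero]
      exact max_le (mul_nonneg hN' hC0) h4
    calc (1 / (N : ℝ)) * ‖X (Q j, P (j + 1)) - X (z j)‖
        ≤ (1 / (N : ℝ)) * (K * ((1 / (N : ℝ)) * C)) :=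
          mul_le_mul_of_nonneg_left (h6.trans (mul_le_mul_of_nonneg_left h7 K.2)) hN'
      _ = K * C * (1 / (N : ℝ)) ^ 2 := by ring)
  refine ⟨fun t => e (ζ t), fun t ht => ?_, ?_, ?_⟩
  · have h1 := (e : (EuclideanSpace ℝ (Fin n) × EuclideanSpace ℝ (Fin n)) →L[ℝ] Z n).hasFDerivAt
      (x := ζ t) |>.comp_hasDerivWithinAt t (hζ t ht)
    have h2 : e (X (ζ t)) = XH H (e (ζ t)) := e.apply_symm_apply _
    rw [← h2]
    exact h1
  · show (e (ζ 0)).2 = 0
    rw [hζ0]
    ext i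
    show P 0 i = 0
    rw [hP0]
    rfl
  · show ‖e (ζ 1)‖ ≤ r
    refine (lr_norm n _).trans ?_
    have h1 : ‖z N‖ ≤ r' := max_le hQN hPN
    have h2 : ζ 1 = z N - (z N - ζ 1) := by abel
    rw [h2]
    refine (norm_sub_le _ _).trans ?_
    have h3 := hζN.trans hND
    linarith

end CoP
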